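import Pool.Agent.H59.TQ.Main
import Pool.Graph.R_pool_sql_team_seeded_63374d34.N410.TE.Count

/-!
# Counting for `Δ + 1 + q` colours
-/

set_option autoImplicit false
set_option linter.unusedSectionVars false

namespace Pool.Agent.H59.TQ

open Finset Pool.Agent.N410.TE

variable {V : Type} [Fintype V] [DecidableEq V] {q : ℕ}

/-- removing edges between vertices `X` of small degree and other vertices `Y` -/
theorem kill (Q : Finset (Sym2 V)) (X Y : Finset V) (hXY : Disjoint X Y) (t : ℕ)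
    (hX2 : ∀ x ∈ X, q + 1 ≤ dE Q x) (n : ℕ) :
    ∀ (B : Finset (Sym2 V)) (X' : Finset V), B.card = n → X' ⊆ X →
      (∀ e ∈ B, ∃ x ∈ X', ∃ y ∈ Y, e = s(x, y)) → (∀ x ∈ X', dE Q x ≤ dE B x + q) →
      (∃ B' ⊆ B, B'.Nonempty ∧ ∀ e ∈ B', ∃ x ∈ X, ∃ y ∈ Y, e = s(x, y) ∧
        dE Q x ≤ dE B' x + q ∧ t ≤ dE B' y + q) ∨
      ∑ x ∈ X', (q + 1 + dE B x - dE Q x) ≤ ∑ y ∈ Y, min (dE B y) (t - q - 1) := by
  classical
  induction n using Nat.strong_induction_on with
  | _ n ih =>
    intro B X' hn hX' hB hfull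
    rcases B.eq_empty_or_nonempty with rfl | hne
    · right
      have hX0 : X' = ∅ := by
        rw [eq_empty_iff_forall_notMem]
        intro x hx
        have h1 := hfull x hx
        have h2 := hX2 x (hX' hx)
        have h3 : dE (∅ : Finset (Sym2 V)) x = 0 := by simp [dE]
        omega
      rw [hX0, sum_empty]
      exact Nat.zero_le _
    by_cases hgood : ∀ e ∈ B, ∃ x ∈ X', ∃ y ∈ Y, e = s(x, y) ∧ t ≤ dE B y + q
    · left
      refine ⟨B, Subset.refl _, hne, fun e he => ?_⟩
      obtain ⟨x, hx, y, hy, hexy, hty⟩ := hgood e he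
      exact ⟨x, hX' hx, y, hy, hexy, hfull x hx, hty⟩
    push Not at hgood
    obtain ⟨e, he, hbad⟩ := hgood
    obtain ⟨x, hx, y, hy, hexy⟩ := hB e he
    have hlt := hbad x hx y hy hexy
    have hxe : x ∈ e := by rw [hexy]; exact Sym2.mem_mk_left _ _
    have hye : y ∈ e := by rw [hexy]; exact Sym2.mem_mk_right _ _
    by_cases hlost : dE Q x + 1 ≤ dE B x + q
    · -- fewer than `q` edges at `x` were removed before
      have hce := card_erase_add_one he
      have h0 : ∀ z ∈ X', z ≠ x → dE (B.erase e) z = dE B z := by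
        intro z hz hzx
        have h1 : z ∉ e := by
          rw [hexy, Sym2.mem_iff]
          rintro (h | h)
          · exact hzx h
          · exact disjoint_left.1 hXY (hX' hz) (h ▸ hy)
        conv_rhs => rw [← insert_erase he]
        exact (dE_insert_ne _ _ _ h1).symm
      have hx1 : dE B x ≤ dE (B.erase e) x + 1 := by
        conv_lhs => rw [← insert_erase he]
        exact dE_insert_le _ _ _
      have hy1 : dE (B.erase e) y + 1 ≤ dE B y :=
        dE_lt (erase_subset _ _) he (notMem_erase _ _) hye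
      rcases ih (B.erase e).card (by omega) (B.erase e) X' rfl hX'
        (fun f hf => hB f (mem_of_mem_erase hf)) (fun z hz => by
          by_cases hzx : z = x
          · rw [hzx]
            omega
          · rw [h0 z hz hzx]
            exact hfull z hz) with ⟨B', hB', h1⟩ | h1
      · exact Or.inl ⟨B', hB'.trans (erase_subset _ _), h1⟩
      · right
        have h2 : ∑ z ∈ X', (q + 1 + dE B z - dE Q z) ≤
            ∑ z ∈ X', (q + 1 + dE (B.erase e) z - dE Q z) + 1 := by
          refine sum_le_one hx (fun z hz hzx => ?_) (by omega)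
          rw [h0 z hz hzx]
        have h3 : ∑ z ∈ Y, min (dE (B.erase e) z) (t - q - 1) + 1 ≤ ∑ z ∈ Y, min (dE B z) (t - q - 1) := by
          refine sum_one_le hy (fun z _ => ?_) ?_
          · exact min_le_min (dE_mono (erase_subset _ _) z) le_rfl
          · rw [min_eq_left (by omega), min_eq_left (by omega)]
            exact hy1
        omega
    · -- too many edges at `x` are removed
      set B1 := B.filter (fun f => x ∉ f) with hB1
      have hB1s : B1 ⊆ B := filter_subset _ _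
      have he1 : e ∉ B1 := fun h => (mem_filter.1 h).2 hxe
      have hlt1 : B1.card < B.card := card_lt_card ⟨hB1s, fun h => he1 (h he)⟩
      have hends : ∀ f ∈ B, ∀ z ∈ X', z ≠ x → z ∈ f → x ∉ f := by
        intro f hf z hz hzx hzf hxf
        obtain ⟨a, ha, b, hb, hab⟩ := hB f hf
        rw [hab, Sym2.mem_iff] at hzf hxf
        rcases hzf with h | h
        · rcases hxf with h' | h'
          · exact hzx (h.trans h'.symm)
          · exact disjoint_left.1 hXY (hX' hx) (h' ▸ hb)
        · exact disjoint_left.1 hXY (hX' hz) (h ▸ hb)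
      have h0 : ∀ z ∈ X', z ≠ x → dE B1 z = dE B z := by
        intro z hz hzx
        unfold dE
        congr 1
        ext f
        rw [mem_filter, mem_filter, mem_filter]
        constructor
        · rintro ⟨⟨h1, _⟩, h2⟩
          exact ⟨h1, h2⟩
        · rintro ⟨h1, h2⟩
          exact ⟨⟨h1, hends f h1 z hz hzx h2⟩, h2⟩
      have hy1 : dE B1 y + 1 ≤ dE B y := dE_lt hB1s he he1 hye
      rcases ih B1.card (by omega) B1 (X'.erase x) rfl ((erase_subset _ _).trans hX')
        (fun f hf => by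
          obtain ⟨h1, h2⟩ := mem_filter.1 hf
          obtain ⟨a, ha, b, hb, hab⟩ := hB f h1
          refine ⟨a, mem_erase.2 ⟨fun h => h2 ?_, ha⟩, b, hb, hab⟩
          rw [hab, ← h]
          exact Sym2.mem_mk_left _ _) (fun z hz => by
          rw [h0 z (mem_of_mem_erase hz) (ne_of_mem_erase hz)]
          exact hfull z (mem_of_mem_erase hz)) with ⟨B', hB', h1⟩ | h1
      · exact Or.inl ⟨B', hB'.trans hB1s, h1⟩
      · right
        have h2 : ∑ z ∈ X', (q + 1 + dE B z - dE Q z) ≤
            ∑ z ∈ X'.erase x, (q + 1 + dE B1 z - dE Q z) + 1 := by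
          rw [← add_sum_erase X' _ hx]
          have h3 : ∑ z ∈ X'.erase x, (q + 1 + dE B z - dE Q z) =
              ∑ z ∈ X'.erase x, (q + 1 + dE B1 z - dE Q z) :=
            sum_congr rfl fun z hz => by rw [h0 z (mem_of_mem_erase hz) (ne_of_mem_erase hz)]
          rw [h3]
          have h4 := hfull x hx
          omega
        have h3 : ∑ z ∈ Y, min (dE B1 z) (t - q - 1) + 1 ≤ ∑ z ∈ Y, min (dE B z) (t - q - 1) := by
          refine sum_one_le hy (fun z _ => ?_) ?_
          · exact min_le_min (dE_mono hB1s z) le_rfl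
          · rw [min_eq_left (by omega), min_eq_left (by omega)]
            exact hy1
        omega


theorem sum_Ico' (q s j : ℕ) :
    2 * ∑ t ∈ Ico (s + q + 2) (s + q + 2 + j), (t - q - 1) = j * (2 * s + 1 + j) := by
  induction j with
  | zero => simp
  | succ j ih =>
    rw [← Nat.add_assoc, sum_Ico_succ_top (by omega), Nat.mul_add, ih]
    have : s + q + 2 + j - q - 1 = s + 1 + j := by omega
    rw [this]
    ring

/-- the arithmetic of the discharging -/
theorem arith' {Δ m d : ℕ} (hqm : q + 2 ≤ m) (h2m : 2 * m + 1 ≤ Δ + q)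
    (h4 : (m - q - 1) * (m - q - 2) + (q + 1) * (q + 4) + 2 * (q + 1) * m ≤ 2 * (q + 1) * Δ)
    (hd3 : q + 2 ≤ d) (hdΔ : d ≤ Δ) :
    (q + 1) * m + ∑ t ∈ Ico (q + 2) m, (if Δ + q ≤ d + t then t - q - 1 else 0) ≤
      (q + 1) * d + ∑ t ∈ Ico (q + 2) m, (if d ≤ t then q + 1 else 0) := by
  by_cases hdm : d < m
  · have h1 : ∑ t ∈ Ico (q + 2) m, (if Δ + q ≤ d + t then t - q - 1 else 0) = 0 := by
      refine sum_eq_zero fun t ht => ?_
      have := (mem_Ico.1 ht).2
      rw [if_neg (by omega)]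
    have h2 : ∑ t ∈ Ico (q + 2) m, (if d ≤ t then q + 1 else 0) = (q + 1) * (m - d) := by
      rw [← sum_filter, sum_const, smul_eq_mul, mul_comm]
      congr 1
      have : (Ico (q + 2) m).filter (fun t => d ≤ t) = Ico d m := by
        ext t
        simp only [mem_filter, mem_Ico]
        omega
      rw [this, Nat.card_Ico]
    rw [h1, h2, add_zero, ← Nat.mul_add]
    exact Nat.mul_le_mul_left _ (by omega)
  · have h0 : 0 ≤ ∑ t ∈ Ico (q + 2) m, (if d ≤ t then q + 1 else 0) := Nat.zero_le _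
    by_cases hs : m + d ≤ Δ + q
    · have h1 : ∑ t ∈ Ico (q + 2) m, (if Δ + q ≤ d + t then t - q - 1 else 0) = 0 := by
        refine sum_eq_zero fun t ht => ?_
        have := (mem_Ico.1 ht).2
        rw [if_neg (by omega)]
      rw [h1]
      have h5 : (q + 1) * m ≤ (q + 1) * d := Nat.mul_le_mul_left _ (by omega)
      omega
    · obtain ⟨s, hs1, hs2, hs3⟩ : ∃ s, s + q + 2 ≤ m ∧ Δ + q ≤ d + s + q + 2 ∧
          (Ico (q + 2) m).filter (fun t => Δ + q ≤ d + t) ⊆ Ico (s + q + 2) m := by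
        by_cases h3 : Δ ≤ d + 2
        · refine ⟨0, by omega, by omega, ?_⟩
          rw [Nat.zero_add]
          exact filter_subset _ _
        · refine ⟨Δ - d - 2, by omega, by omega, fun t ht => ?_⟩
          simp only [mem_filter, mem_Ico] at ht ⊢
          omega
      obtain ⟨j, rfl⟩ : ∃ j, m = s + q + 2 + j := ⟨m - (s + q + 2), by omega⟩
      have h1 : ∑ t ∈ Ico (q + 2) (s + q + 2 + j), (if Δ + q ≤ d + t then t - q - 1 else 0) ≤
          ∑ t ∈ Ico (s + q + 2) (s + q + 2 + j), (t - q - 1) := by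
        rw [← sum_filter]
        exact sum_le_sum_of_subset hs3
      have h2 := sum_Ico' q s j
      have e1 : s + q + 2 + j - q - 1 = s + j + 1 := by omega
      have e2 : s + q + 2 + j - q - 2 = s + j := by omega
      rw [e1, e2] at h4
      have h5 : 2 * ((q + 1) * (s + q + 2 + j)) + j * (2 * s + 1 + j) ≤ 2 * ((q + 1) * d) := by
        have h6 : 2 * (q + 1) * Δ ≤ 2 * (q + 1) * (d + s + 2) :=
          Nat.mul_le_mul_left _ (by omega)
        have h7 := h4.trans h6
        zify at h7 ⊢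
        have h8 : (0 : ℤ) ≤ ((s : ℤ) - q) * ((s : ℤ) - q - 1) := by
          rcases Nat.lt_or_ge q s with h | h
          · have a1 : (0 : ℤ) ≤ (s : ℤ) - q := by omega
            have a2 : (0 : ℤ) ≤ (s : ℤ) - q - 1 := by omega
            exact mul_nonneg a1 a2
          · have a1 : (s : ℤ) - q ≤ 0 := by omega
            have a2 : (s : ℤ) - q - 1 ≤ 0 := by omega
            exact mul_nonneg_of_nonpos_of_nonpos a1 a2
        nlinarith
      omega

/-- counting the edges at the vertices of degree at most `t` by means of bipartite subgraphs -/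
theorem count2 {Δ m : ℕ} (Q : Finset (Sym2 V)) (t : ℕ) (ht3 : q + 2 ≤ t) (htm : t < m)
    (h2m : 2 * m + 1 ≤ Δ + q) (hlow : ∀ v ∈ cov Q, q + 2 ≤ dE Q v)
    (hedge : ∀ x y, s(x, y) ∈ Q → dE Q x < m → Δ + q ≤ dE Q x + dE Q y)
    (hB : ¬ ∃ B ⊆ Q, B.Nonempty ∧ ∀ e ∈ B, ∃ x y, e = s(x, y) ∧ dE Q x ≤ m - 1 ∧ m - 1 < dE Q y ∧
      dE Q x ≤ dE B x + q ∧ dE Q x ≤ dE B y + q) :
    ∑ v ∈ cov Q, (if dE Q v ≤ t then q + 1 else 0) ≤
      ∑ v ∈ cov Q, (if Δ + q ≤ dE Q v + t then t - q - 1 else 0) := by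
  classical
  set X := (cov Q).filter (fun v => dE Q v ≤ t) with hX
  set Y := (cov Q).filter (fun v => Δ + q ≤ dE Q v + t) with hY
  set F := Q.filter (fun e => ∃ x ∈ X, x ∈ e) with hF
  have hXY : Disjoint X Y := by
    rw [disjoint_left]
    intro v hv hv'
    have h1 := (mem_filter.1 hv).2
    have h2 := (mem_filter.1 hv').2
    omega
  have hFx : ∀ x ∈ X, dE F x = dE Q x := by
    intro x hx
    unfold dE
    congr 1
    ext e
    rw [mem_filter, mem_filter, mem_filter]
    constructor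
    · rintro ⟨⟨h1, _⟩, h2⟩
      exact ⟨h1, h2⟩
    · rintro ⟨h1, h2⟩
      exact ⟨⟨h1, x, hx, h2⟩, h2⟩
  rcases kill (q := q) Q X Y hXY t (fun x hx => by
      have := hlow x (mem_filter.1 hx).1
      omega) F.card F X rfl (Subset.refl _) (fun e he => by
        obtain ⟨heQ, x, hx, hxe⟩ := mem_filter.1 he
        obtain ⟨y, rfl⟩ := hxe
        refine ⟨x, hx, y, mem_filter.2 ⟨mem_cov'.2 ⟨_, heQ, Sym2.mem_mk_right _ _⟩, ?_⟩, rfl⟩
        have h1 := (mem_filter.1 hx).2
        have h2 := hedge x y heQ (by omega)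
        omega) (fun x hx => by rw [hFx x hx]; omega) with ⟨B, hBF, hne, h1⟩ | h1
  · exfalso
    refine hB ⟨B, hBF.trans (filter_subset _ _), hne, fun e he => ?_⟩
    obtain ⟨x, hx, y, hy, hexy, h2, h3⟩ := h1 e he
    have h4 := (mem_filter.1 hx).2
    have h5 := (mem_filter.1 hy).2
    exact ⟨x, y, hexy, by omega, by omega, h2, by omega⟩
  · have h2 : ∑ v ∈ cov Q, (if dE Q v ≤ t then q + 1 else 0) = ∑ x ∈ X, (q + 1 + dE F x - dE Q x) := by
      rw [hX, ← sum_filter]
      refine sum_congr rfl fun x hx => ?_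
      rw [hFx x hx]
      omega
    have h3 : ∑ v ∈ cov Q, (if Δ + q ≤ dE Q v + t then t - q - 1 else 0) = ∑ y ∈ Y, (t - q - 1) := by
      rw [hY, sum_filter]
    rw [h2, h3]
    exact h1.trans (sum_le_sum fun y _ => min_le_right _ _)


/-- a set of edges with average degree less than `m` has a reducible configuration -/
theorem red_mad' {Δ m : ℕ} (hqm : q + 2 ≤ m) (h2m : 2 * m + 1 ≤ Δ + q)
    (h4 : (m - q - 1) * (m - q - 2) + (q + 1) * (q + 4) + 2 * (q + 1) * m ≤ 2 * (q + 1) * Δ)
    (Q : Finset (Sym2 V)) (hdiag : ∀ e ∈ Q, ¬ e.IsDiag) (hdeg : ∀ v, dE Q v ≤ Δ)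
    (hs : 2 * Q.card < m * (cov Q).card) : Red Δ q (m - 1) Q := by
  classical
  by_contra hcon
  unfold Red at hcon
  simp only [not_or] at hcon
  obtain ⟨hc1, hc2, hc3⟩ := hcon
  push Not at hc1 hc2
  have hlow : ∀ v ∈ cov Q, q + 2 ≤ dE Q v := by
    intro v hv
    have := hc1 v (mem_cov.1 hv)
    omega
  have hedge : ∀ x y, s(x, y) ∈ Q → dE Q x < m → Δ + q ≤ dE Q x + dE Q y := by
    intro x y hxy hx
    by_contra hlt
    have := hc2 x y hxy (by omega) (by omega)
    omega
  have hc := fun t (ht : t ∈ Ico (q + 2) m) =>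
    count2 (q := q) Q t (mem_Ico.1 ht).1 (mem_Ico.1 ht).2 h2m hlow hedge hc3
  have h1 := sum_le_sum hc
  rw [sum_comm, sum_comm (s := Ico (q + 2) m) (t := cov Q)] at h1
  have h2 : ∑ v ∈ cov Q, ((q + 1) * m +
        ∑ t ∈ Ico (q + 2) m, (if Δ + q ≤ dE Q v + t then t - q - 1 else 0)) ≤
      ∑ v ∈ cov Q, ((q + 1) * dE Q v + ∑ t ∈ Ico (q + 2) m, (if dE Q v ≤ t then q + 1 else 0)) :=
    sum_le_sum fun v hv => arith' hqm h2m h4 (hlow v hv) (hdeg v)
  rw [sum_add_distrib, sum_add_distrib, sum_const, ← mul_sum, sum_dE Q hdiag, smul_eq_mul] at h2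
  have h3 : (cov Q).card * ((q + 1) * m) = (q + 1) * (m * (cov Q).card) := by ring
  have h5 : (q + 1) * (2 * Q.card) + (q + 1) ≤ (q + 1) * (m * (cov Q).card) := by
    have h6 : 2 * Q.card + 1 ≤ m * (cov Q).card := hs
    calc (q + 1) * (2 * Q.card) + (q + 1) = (q + 1) * (2 * Q.card + 1) := by ring
      _ ≤ _ := Nat.mul_le_mul_left _ h6
  omega

end Pool.Agent.H59.TQ
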