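import Pool.Graph.R_pool_sql_team_seeded_63374d34.N410.TE.Alt
import Pool.Graph.R_pool_sql_team_seeded_63374d34.N410.TE.Main

/-!
# Reducible configurations with `Δ + 1 + q` colours

These are the steps of the library modules `N410.TE.Steps` and `N410.TE.Alt` with `Δ + 1 + q`
instead of `Δ + 2` colours.
-/

set_option autoImplicit false
set_option linter.unusedSectionVars false

namespace Pool.Agent.H59.TQ

open Finset Pool.Agent.N410.TE

variable {V : Type} [Fintype V] [DecidableEq V] {G H : SimpleGraph V} {hv : Finset V}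
  {EG EH : Finset (Sym2 V)} {Δ r q : ℕ} {L : V → Finset ℕ} {M : Sym2 V → Finset ℕ}
  {k : ℕ} {c0 : V → ℕ} {g0 : Sym2 V → ℕ}

/-- colour at most two edges at an uncoloured vertex -/
theorem addP (S : Setting G H hv EG EH Δ) (hMs : ∀ e ∈ EG, e ∉ EH → k ≤ (M e).card) (hk : k = Δ + 1 + q) {E0 : Finset (Sym2 V)} (hE0 : E0 ⊆ EG)
    {y : V} (hy : y ∉ hv) {c : V → ℕ} {g : Sym2 V → ℕ}
    (h : Good L M G hv EH c0 g0 E0 (univ.erase y) c g) (P : Finset (Sym2 V)) :
    (∀ e ∈ P, y ∈ e ∧ e ∈ EG ∧ e ∉ E0) → dE E0 y + P.card ≤ q + 1 →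
    ∃ g', Good L M G hv EH c0 g0 (E0 ∪ P) (univ.erase y) c g' := by
  induction P using Finset.induction_on with
  | empty =>
    intro _ _
    exact ⟨g, by rw [union_empty]; exact h⟩
  | @insert e P heP ih =>
    intro h1 h2
    rw [card_insert_of_notMem heP] at h2
    obtain ⟨g1, hg1⟩ := ih (fun f hf => h1 f (mem_insert_of_mem hf)) (by omega)
    obtain ⟨hye, heG, heE0⟩ := h1 e (mem_insert_self _ _)
    obtain ⟨a, rfl⟩ := hye
    have hya : y ≠ a := S.ne heG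
    have hsub : E0 ∪ P ⊆ EG := union_subset hE0 fun f hf => (h1 f (mem_insert_of_mem hf)).2.1
    have hnot : s(y, a) ∉ E0 ∪ P := by
      rw [mem_union]
      push Not
      exact ⟨heE0, heP⟩
    have e1 : E0 ∪ insert s(y, a) P = insert s(y, a) (E0 ∪ P) := by
      rw [union_insert]
    rw [e1]
    have hnEH : s(y, a) ∉ EH := fun h5 => S.not_hv hy h5 (Sym2.mem_mk_left _ _)
    refine add_edge hg1 (hMs _ heG hnEH) hnot hnEH
      (fun h5 => absurd h5 (notMem_erase y _)) ?_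
    have h3 := dE_lt hsub heG hnot (Sym2.mem_mk_right y a)
    have h4 := S.deg a
    have h5 : dE (E0 ∪ P) y ≤ dE E0 y + P.card := by
      refine (dE_union_le _ _ y).trans (Nat.add_le_add_left ?_ _)
      exact card_le_card (filter_subset _ _)
    rw [if_neg (notMem_erase y _), if_pos (mem_erase.2 ⟨hya.symm, mem_univ _⟩)]
    omega

/-- **First step**: a vertex outside `H` with at most two neighbours which are not frozen. -/
theorem step1 (S : Setting G H hv EG EH Δ) (hLs : ∀ v, v ∉ hv → k ≤ (L v).card)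
    (hMs : ∀ e ∈ EG, e ∉ EH → k ≤ (M e).card) (hΔ : q + 4 ≤ Δ) (hr : r + 4 ≤ Δ)
    (hk : k = Δ + 1 + q) {E : Finset (Sym2 V)}
    (hEG : E ⊆ EG) (hEH : EH ⊆ E) {Z : Finset V} (hZ : Inv H hv EH Δ r E Z) {y : V} (hy : y ∉ hv)
    (h2 : dE (nf E Z) y ≤ q + 1)
    (ih : ∃ c g, Good L M G hv EH c0 g0 (E.filter (fun e => y ∉ e)) univ c g) :
    ∃ c g, Good L M G hv EH c0 g0 E univ c g := by
  obtain ⟨c, g, hg⟩ := ih
  have hyZ : y ∉ Z := fun h => hy (hZ.sub h)
  set E0 := E.filter (fun e => y ∉ e) with hE0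
  have hE0E : E0 ⊆ E := filter_subset _ _
  set P := (nf E Z).filter (fun e => y ∈ e) with hP
  have hPE : P ⊆ E := fun e he => (mem_nf.1 (mem_filter.1 he).1).1
  have hd0 : dE E0 y = 0 := by
    unfold dE
    rw [card_eq_zero, filter_eq_empty_iff]
    intro e he
    exact (mem_filter.1 he).2
  obtain ⟨g1, hg1⟩ := addP S hMs hk (hE0E.trans hEG) hy (hg.mono (Subset.refl _) (erase_subset y univ)) P
    (fun e he => ⟨(mem_filter.1 he).2, hEG (hPE he), fun h => (mem_filter.1 h).2 (mem_filter.1 he).2⟩)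
    (by
      rw [hd0]
      have : P.card = dE (nf E Z) y := rfl
      omega)
  have hdP : dE (E0 ∪ P) y ≤ q + 1 := by
    refine (dE_union_le _ _ y).trans ?_
    have h3 : dE P y ≤ P.card := card_le_card (filter_subset _ _)
    have h4 : P.card = dE (nf E Z) y := rfl
    omega
  have hEP : E0 ∪ P ⊆ E := union_subset hE0E hPE
  obtain ⟨c2, hg2⟩ := add_vertex hg1 (fun v hv => (S.ne (hEG (hEP hv))) rfl) hy
    (hLs y hy)
    (hv.filter (fun u => s(y, u) ∈ EG)) (fun u hu hyu => mem_filter.2 ⟨hu, (S.memG _).2 hyu⟩)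
    (S.fz_card (y := y) _ (filter_subset _ _) (fun u hu => (mem_filter.1 hu).2)) (by omega)
  rw [insert_erase (mem_univ y)] at hg2
  obtain ⟨g3, hg3⟩ := addU S hMs hEG hZ hy (fz E Z y) (filter_subset _ _)
    (fun u hu => (mem_fz.1 hu).2) (fun u hu h => by
      rcases mem_union.1 h with h | h
      · exact (mem_filter.1 h).2 (Sym2.mem_mk_left _ _)
      · exact fz_not_nf hu (mem_filter.1 h).1) hEP (q + 1) hdP (by omega)
    (fun u _ w _ _ n h3 h4 => by omega) hg2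
  refine ⟨c2, g3, hg3.mono ?_ (Subset.refl _)⟩
  intro e he
  by_cases hye : y ∈ e
  · rcases decomp hyZ he hye with h | ⟨u, hu, rfl⟩
    · exact mem_union_left _ (mem_union_right _ (mem_filter.2 ⟨h, hye⟩))
    · exact mem_union_right _ (mem_image_of_mem _ hu)
  · exact mem_union_left _ (mem_union_left _ (mem_filter.2 ⟨he, hye⟩))

/-- **Second step**: a light edge outside `H`. -/
theorem step2 (S : Setting G H hv EG EH Δ) (hLs : ∀ v, v ∉ hv → k ≤ (L v).card)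
    (hMs : ∀ e ∈ EG, e ∉ EH → k ≤ (M e).card) (hq : 1 ≤ q) (hk : k = Δ + 1 + q) {E : Finset (Sym2 V)}
    (hEG : E ⊆ EG) (hEH : EH ⊆ E) {Z : Finset V} (hZ : Inv H hv EH Δ r E Z) {x y : V} (hx : x ∉ hv)
    (hy : y ∉ hv) (hxy : s(x, y) ∈ E) 
    (hsum : dE (nf E Z \ EH) x + dE (nf E Z \ EH) y + 1 ≤ Δ + q) (hlt : 2 * dE (nf E Z \ EH) x + 2 ≤ Δ + q)
    (hr : dE (nf E Z \ EH) x + r + 2 < Δ + q)
    (ih : ∃ c g, Good L M G hv EH c0 g0 (cutE E Z s(x, y) x) univ c g) :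
    ∃ c g, Good L M G hv EH c0 g0 E univ c g := by
  obtain ⟨c, g, hg⟩ := ih
  have hxZ : x ∉ Z := fun h => hx (hZ.sub h)
  have hyZ : y ∉ Z := fun h => hy (hZ.sub h)
  have hne : x ≠ y := S.ne (hEG hxy)
  set E0 := cutE E Z s(x, y) x with hE0
  have hE0E : E0 ⊆ E := filter_subset _ _
  have hxynf : s(x, y) ∈ nf E Z := mem_nf.2 ⟨hxy, fun v hv => by
    rcases Sym2.mem_iff.1 hv with rfl | rfl
    · exact hxZ
    · exact hyZ⟩
  have hdx : dE E0 x + 1 ≤ dE (nf E Z \ EH) x := dE_cut S hx hxynf (Sym2.mem_mk_left _ _)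
  have hnot : s(x, y) ∉ E0 := fun h => (mem_cutE.1 h).2.1 rfl
  have hdy : dE E0 y + 1 ≤ dE (nf E Z \ EH) y + 2 := by
    have h4 := dE_lt hE0E hxy hnot (Sym2.mem_mk_right x y)
    have h5 : dE E y ≤ dE (nf E Z \ EH) y + (fz E Z y).card := by
      unfold dE
      have h6 : E.filter (fun e => y ∈ e) ⊆ (nf E Z \ EH).filter (fun e => y ∈ e) ∪
          (fz E Z y).image (fun u => s(y, u)) := by
        intro e he
        obtain ⟨he1, he2⟩ := mem_filter.1 he
        rcases decomp hyZ he1 he2 with h | ⟨u, hu, rfl⟩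
        · exact mem_union_left _ (mem_filter.2 ⟨mem_sdiff.2 ⟨h, fun h7 => S.not_hv hy h7 he2⟩, he2⟩)
        · exact mem_union_right _ (mem_image_of_mem _ hu)
      exact (card_le_card h6).trans ((card_union_le _ _).trans
        (Nat.add_le_add_left card_image_le _))
    have h6 := S.fz_card (y := y) (fz E Z y) ((filter_subset _ _).trans hZ.sub)
      (fun u hu => hEG (mem_fz.1 hu).2)
    omega
  obtain ⟨g1, hg1⟩ := add_edge (hg.mono (Subset.refl _) (erase_subset x univ))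
    (hMs _ (hEG hxy) (fun h => S.not_hv hx h (Sym2.mem_mk_left _ _))) hnot
    (fun h => S.not_hv hx h (Sym2.mem_mk_left _ _)) (fun h5 => absurd h5 (notMem_erase x _)) (by
      rw [if_neg (notMem_erase x _), if_pos (mem_erase.2 ⟨hne.symm, mem_univ _⟩)]
      omega)
  have hsub : insert s(x, y) E0 ⊆ E := insert_subset hxy hE0E
  have hdx2 : dE (insert s(x, y) E0) x ≤ dE (nf E Z \ EH) x := by
    have := dE_insert_le E0 s(x, y) x
    omega
  obtain ⟨c2, hg2⟩ := add_vertex hg1 (fun v hv => (S.ne (hEG (hsub hv))) rfl) hx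
    (hLs x hx)
    (hv.filter (fun u => s(x, u) ∈ EG)) (fun u hu hxu => mem_filter.2 ⟨hu, (S.memG _).2 hxu⟩)
    (S.fz_card (y := x) _ (filter_subset _ _) (fun u hu => (mem_filter.1 hu).2)) (by omega)
  rw [insert_erase (mem_univ x)] at hg2
  obtain ⟨g3, hg3⟩ := addU S hMs hEG hZ hx (fz E Z x) (filter_subset _ _)
    (fun u hu => (mem_fz.1 hu).2) (fun u hu h => by
      rcases mem_insert.1 h with h | h
      · exact fz_not_nf hu (h ▸ hxynf)
      · exact (mem_cutE.1 h).2.2 (Sym2.mem_mk_left _ _) u (Sym2.mem_mk_right _ _) (mem_fz.1 hu).1)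
    hsub _ hdx2 (by omega) (fun u _ w _ _ n h3 h4 => by omega) hg2
  refine ⟨c2, g3, hg3.mono ?_ (Subset.refl _)⟩
  intro e he
  by_cases hexy : e = s(x, y)
  · exact mem_union_left _ (hexy ▸ mem_insert_self _ _)
  · by_cases hxe : x ∈ e
    · rcases decomp hxZ he hxe with h | ⟨u, hu, rfl⟩
      · exact mem_union_left _ (mem_insert_of_mem (mem_cutE.2 ⟨he, hexy, fun _ => (mem_nf.1 h).2⟩))
      · exact mem_union_right _ (mem_image_of_mem _ hu)
    · exact mem_union_left _ (mem_insert_of_mem (mem_cutE.2 ⟨he, hexy, fun h => absurd h hxe⟩))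

/-- **Third step**: a light edge with one end in `H`. -/
theorem step3 (S : Setting G H hv EG EH Δ)
    (hMs : ∀ e ∈ EG, e ∉ EH → k ≤ (M e).card) (hk : k = Δ + 1 + q) {E : Finset (Sym2 V)}
    (hEG : E ⊆ EG) (hEH : EH ⊆ E) {Z : Finset V} (hZ : Inv H hv EH Δ r E Z) {x y : V} (hx : x ∈ hv)
    (hxZ : x ∉ Z) (hy : y ∉ hv) (hxy : s(x, y) ∈ E) (h3 : r + 1 ≤ dE (nf E Z \ EH) x)
    (hsum : dE (nf E Z \ EH) x + dE (nf E Z \ EH) y + 1 ≤ Δ + q)
    (ih : ∃ c g, Good L M G hv EH c0 g0 (cutE E Z s(x, y) y) univ c g) :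
    ∃ c g, Good L M G hv EH c0 g0 E univ c g := by
  obtain ⟨c, g, hg⟩ := ih
  have hyZ : y ∉ Z := fun h => hy (hZ.sub h)
  have hne : x ≠ y := S.ne (hEG hxy)
  set E0 := cutE E Z s(x, y) y with hE0
  have hE0E : E0 ⊆ E := filter_subset _ _
  have hxyEH : s(x, y) ∉ EH := fun h => S.not_hv hy h (Sym2.mem_mk_right _ _)
  have hxynf : s(x, y) ∈ nf E Z := mem_nf.2 ⟨hxy, fun v hv => by
    rcases Sym2.mem_iff.1 hv with rfl | rfl
    · exact hxZ
    · exact hyZ⟩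
  have hdy : dE E0 y + 1 ≤ dE (nf E Z \ EH) y := dE_cut S hy hxynf (Sym2.mem_mk_right _ _)
  have hnot : s(x, y) ∉ E0 := fun h => (mem_cutE.1 h).2.1 rfl
  have hdx : dE E0 x + 1 ≤ dE (nf E Z \ EH) x + 1 := by
    have h4 := dE_lt hE0E hxy hnot (Sym2.mem_mk_left x y)
    have h5 := S.dE_le E x
    have h6 : np EH E x ≤ dE (nf E Z \ EH) x := by
      unfold np dE
      refine card_le_card fun e he => ?_
      obtain ⟨he1, he2⟩ := mem_filter.1 he
      obtain ⟨he3, he4⟩ := mem_sdiff.1 he1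
      refine mem_filter.2 ⟨mem_sdiff.2 ⟨?_, he4⟩, he2⟩
      obtain ⟨a, rfl⟩ := he2
      refine mem_nf.2 ⟨he3, fun v hv => ?_⟩
      rcases Sym2.mem_iff.1 hv with rfl | rfl
      · exact hxZ
      · exact fun h => S.out hx (hEG he3) he4 (hZ.sub h)
    omega
  obtain ⟨g1, hg1⟩ := add_edge hg (hMs _ (hEG hxy) hxyEH) hnot hxyEH
    (fun _ _ => (hg.nbr y (mem_univ _) x hx (S.adj (hEG hxy)).symm).symm) (by
      simp only [mem_univ, if_true]
      omega)
  have hsub : insert s(x, y) E0 ⊆ E := insert_subset hxy hE0E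
  have hdy2 : dE (insert s(x, y) E0) y ≤ dE (nf E Z \ EH) y := by
    have := dE_insert_le E0 s(x, y) y
    omega
  obtain ⟨g3, hg3⟩ := addU S hMs hEG hZ hy (fz E Z y) (filter_subset _ _)
    (fun u hu => (mem_fz.1 hu).2) (fun u hu h => by
      rcases mem_insert.1 h with h | h
      · exact fz_not_nf hu (h ▸ hxynf)
      · exact (mem_cutE.1 h).2.2 (Sym2.mem_mk_left _ _) u (Sym2.mem_mk_right _ _) (mem_fz.1 hu).1)
    hsub _ hdy2 (by omega) (fun u hu w hw huw n h3 h4 => by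
      exfalso
      have hu1 := mem_fz.1 hu
      have hw1 := mem_fz.1 hw
      have hxu : x ≠ u := fun h5 => hxZ (h5 ▸ hu1.1)
      have hxw : x ≠ w := fun h5 => hxZ (h5 ▸ hw1.1)
      have a1 := S.near2 y x hx u (hZ.sub hu1.1) (S.adj (hEG hxy)).symm (S.adj (hEG hu1.2)) hxu
      have a2 := S.near2 y x hx w (hZ.sub hw1.1) (S.adj (hEG hxy)).symm (S.adj (hEG hw1.2)) hxw
      exact huw (S.mat x u w a1 a2)) hg1
  refine ⟨c, g3, hg3.mono ?_ (Subset.refl _)⟩
  intro e he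
  by_cases hexy : e = s(x, y)
  · exact mem_union_left _ (hexy ▸ mem_insert_self _ _)
  · by_cases hye : y ∈ e
    · rcases decomp hyZ he hye with h | ⟨u, hu, rfl⟩
      · exact mem_union_left _ (mem_insert_of_mem (mem_cutE.2 ⟨he, hexy, fun _ => (mem_nf.1 h).2⟩))
      · exact mem_union_right _ (mem_image_of_mem _ hu)
    · exact mem_union_left _ (mem_insert_of_mem (mem_cutE.2 ⟨he, hexy, fun h => absurd h hye⟩))

/-- **Fourth step**: a bipartite subgraph between vertices of small degree outside `H` and other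
vertices. -/
theorem step4 (S : Setting G H hv EG EH Δ) (hLs : ∀ v, v ∉ hv → k ≤ (L v).card)
    (hMs : ∀ e ∈ EG, e ∉ EH → k ≤ (M e).card) (hq : 1 ≤ q) (hk : k = Δ + 1 + q) (hΔ : 2 * r + 3 ≤ Δ + q)
    {E : Finset (Sym2 V)} (hEG : E ⊆ EG) {Z : Finset V}
    (hZ : Inv H hv EH Δ r E Z) (B : Finset (Sym2 V)) (hBQ : B ⊆ nf E Z \ EH) (X : Finset V)
    (hX : ∀ x ∈ X, x ∉ hv ∧ dE (nf E Z \ EH) x ≤ r)
    (hB1 : ∀ e ∈ B, ∃ x ∈ X, ∃ y, y ∉ X ∧ e = s(x, y))
    (hB2 : ∀ x ∈ X, ∀ y, y ∉ X → s(x, y) ∈ B →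
      dE (nf E Z \ EH) x ≤ dE B x + q ∧ dE (nf E Z \ EH) x ≤ dE B y + q)
    (ih : ∃ c g, Good L M G hv EH c0 g0
      (E.filter (fun e => e ∉ B ∧ ∀ x ∈ X, x ∈ e → e ∈ nf E Z)) univ c g) :
    ∃ c g, Good L M G hv EH c0 g0 E univ c g := by
  classical
  obtain ⟨c, g, hg⟩ := ih
  set E0 := E.filter (fun e => e ∉ B ∧ ∀ x ∈ X, x ∈ e → e ∈ nf E Z) with hE0
  have hE0E : E0 ⊆ E := filter_subset _ _
  have hBE : B ⊆ E := fun e he => (mem_nf.1 (mem_sdiff.1 (hBQ he)).1).1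
  have hdis : Disjoint E0 B := disjoint_left.2 fun e he => (mem_filter.1 he).2.1
  have hdisH : Disjoint EH B := disjoint_left.2 fun e he heB => (mem_sdiff.1 (hBQ heB)).2 he
  have hxQ : ∀ x ∈ X, ∀ e ∈ E0, x ∈ e → e ∈ nf E Z \ EH := fun x hx e he hxe =>
    mem_sdiff.2 ⟨(mem_filter.1 he).2.2 x hx hxe, fun h => S.not_hv (hX x hx).1 h hxe⟩
  have hxd : ∀ x ∈ X, dE E0 x + dE B x ≤ dE (nf E Z \ EH) x := fun x hx =>
    dE_add_le hdis (hxQ x hx) (fun e he _ => hBQ he)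
  obtain ⟨g1, hg1⟩ := addB (hg.mono (Subset.refl _) (subset_univ (univ \ X))) hB1 hdisH (by
    intro x hx y hy hxy
    have h1 := hxd x hx
    have h2 : dE E0 y + dE B y ≤ dE EG y :=
      dE_add_le hdis (fun e he _ => hEG (hE0E he)) (fun e he _ => hEG (hBE he))
    have h3 := S.deg y
    obtain ⟨h4, h5⟩ := hB2 x hx y hy hxy
    have h6 := hMs _ (hEG (hBE hxy)) (mem_sdiff.1 (hBQ hxy)).2
    rcases max_cases (dE B x) (dE B y) with ⟨h7, _⟩ | ⟨h7, _⟩ <;> rw [h7] <;> omega)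
  have hE1E : E0 ∪ B ⊆ E := union_subset hE0E hBE
  have hd1 : ∀ x ∈ X, dE (E0 ∪ B) x ≤ r := fun x hx =>
    (dE_union_le _ _ x).trans ((hxd x hx).trans (hX x hx).2)
  obtain ⟨c2, hg2⟩ := addX S hLs (hE1E.trans hEG) (univ \ X) X r (by omega)
    (fun x hx => ⟨(hX x hx).1, hd1 x hx⟩) ⟨c, hg1⟩
  have hu : (univ \ X) ∪ X = univ := sdiff_union_of_subset (subset_univ X)
  rw [hu] at hg2
  obtain ⟨g3, hg3⟩ := addF S hMs hEG hZ hE1E r (by omega) X (fun x hx => by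
    refine ⟨(hX x hx).1, hd1 x hx, fun u hu h => ?_⟩
    rcases mem_union.1 h with h | h
    · exact (mem_nf.1 (mem_sdiff.1 (hxQ x hx _ h (Sym2.mem_mk_left _ _))).1).2 u
        (Sym2.mem_mk_right _ _) hu
    · exact (mem_nf.1 (mem_sdiff.1 (hBQ h)).1).2 u (Sym2.mem_mk_right _ _) hu) ⟨g1, hg2⟩
  refine ⟨c2, g3, hg3.mono ?_ (Subset.refl _)⟩
  intro e he
  by_cases heB : e ∈ B
  · exact mem_union_left _ (mem_union_right _ heB)
  · by_cases hall : ∀ x ∈ X, x ∈ e → e ∈ nf E Z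
    · exact mem_union_left _ (mem_union_left _ (mem_filter.2 ⟨he, heB, hall⟩))
    · push Not at hall
      obtain ⟨x, hx, hxe, hnf⟩ := hall
      have hxZ : x ∉ Z := fun h => (hX x hx).1 (hZ.sub h)
      rcases decomp hxZ he hxe with h | ⟨u, hu, rfl⟩
      · exact absurd h hnf
      · exact mem_union_right _ (mem_fzE.2 ⟨x, hx, u, hu, rfl⟩)

end Pool.Agent.H59.TQ
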